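import Pool.Agent.TH21.MS.NomeMain

/-!
# Values of `j`, `j'`, `j''` at the points `log x / (2πi)` for rational `x`

For points `z_k = log x_k / (2πi)` with rational nomes `x_k = exp (2πi z_k)`, `0 < x_k < 1`, the modular
Schanuel conjecture with derivatives says that the field generated by the `z_k` and the values `j (z_k)`,
`j' (z_k)`, `j'' (z_k)` has transcendence degree at least `3 n` if `x_1, …, x_n` are pairwise multiplicatively
independent (and not CM); in fact one expects that `π`, `log x_k`, `j (z_k)`, `D j (z_k)`, `D² j (z_k)`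
(`D = (1/2πi) d/dz`) are algebraically independent if the `x_k` are multiplicatively independent. For `n = 1`
the last three numbers are algebraically independent by Nesterenko's theorem.

We prove for almost all `n`-tuples of rational numbers that these `4 n + 1` numbers satisfy no polynomial
relation, even approximately, of bounded degree and with integer coefficients bounded by any fixed power of the
bound `T` of the denominators: there are about `T^(2n)` tuples with denominators at most `T` in `[a, b]^n`, and all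
but `C T^(2(n-1)+β)` of them are good, `β < 2`.

Proof: the determinant method of helper818 (`Pool.Agent.TH818.AP`) for approximate relations between `π` and values
of analytic functions at rational points. It needs the algebraic independence over `ℝ` of the functions `x`, `log x`,
`J (x)`, `D J (x)`, `D² J (x)` (Mahler), which is proved here from the invariance of `j` under `z ↦ -1/z` and from
lower bounds near the cusp (`Pool.Agent.TH21.MS.Mahler`).
-/

set_option autoImplicit false

namespace Pool.Agent.Results.MP_5e64e7_nt.AlmostAllRationalNomes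

/-- the normalised Eisenstein series of weight `4` -/
noncomputable def E4 (τ : ℂ) : ℂ :=
  1 + 240 * ∑' m : ℕ, ((ArithmeticFunction.sigma 3 (m + 1) : ℕ) : ℂ) *
    Complex.exp (2 * (Real.pi : ℂ) * Complex.I * τ) ^ (m + 1)

/-- the normalised Eisenstein series of weight `6` -/
noncomputable def E6 (τ : ℂ) : ℂ :=
  1 - 504 * ∑' m : ℕ, ((ArithmeticFunction.sigma 5 (m + 1) : ℕ) : ℂ) *
    Complex.exp (2 * (Real.pi : ℂ) * Complex.I * τ) ^ (m + 1)

/-- the modular invariant `j = q⁻¹ + 744 + 196884 q + ⋯` -/
noncomputable def j (τ : ℂ) : ℂ := 1728 * E4 τ ^ 3 / (E4 τ ^ 3 - E6 τ ^ 2)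

/-- the point `z = log x / (2πi)` of the upper half-plane, `exp (2πi z) = x`, for `0 < x < 1` -/
noncomputable def z (x : ℝ) : ℂ := (Real.log x : ℂ) / (2 * (Real.pi : ℂ) * Complex.I)

/-- `log x`, `j (z)`, `D j (z)`, `D² j (z)`, where `D = (1/2πi) d/dz` -/
noncomputable def four (x : ℝ) : Fin 4 → ℂ :=
  ![(Real.log x : ℂ), j (z x), deriv j (z x) / (2 * (Real.pi : ℂ) * Complex.I),
    deriv (deriv j) (z x) / (2 * (Real.pi : ℂ) * Complex.I) ^ 2]

/-- the `4 n + 1` numbers `π` and `log x_k`, `j (z_k)`, `D j (z_k)`, `D² j (z_k)` -/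
noncomputable def numbers {n : ℕ} (x : Fin n → ℚ) (i : Option (Fin n × Fin 4)) : ℂ :=
  i.elim (Real.pi : ℂ) fun p => four (x p.1) p.2

/-- The `n`-tuples `x` of rational numbers in `[a, b]` with denominators at most `T` for which some nonzero
polynomial in `4 n + 1` variables with integer coefficients of absolute value at most `T ^ A`, of degree at most `d`
in each variable, takes at the `4 n + 1` numbers a value of absolute value at most `T ^ (-B)`. -/
def Exceptional (n d : ℕ) (a b A B T : ℝ) : Set (Fin n → ℚ) :=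
  {x | (∀ k, a ≤ x k ∧ x k ≤ b ∧ ((x k).den : ℝ) ≤ T) ∧
    ∃ P : MvPolynomial (Option (Fin n × Fin 4)) ℤ, P ≠ 0 ∧ (∀ i, P.degreeOf i ≤ d) ∧
      (∀ s, |((P.coeff s : ℤ) : ℝ)| ≤ T ^ A) ∧ ‖MvPolynomial.aeval (numbers x) P‖ ≤ T ^ (-B)}

/-- Let `[a, b] ⊂ (0, 1)`, `n ≥ 1`, `d`, `A ≥ 0` and `β > 2 - 2 / ((d + 1)^(4 n + 1) + 1)`. There are `B` and `C` such
that for all `T ≥ 1` the number of exceptional `n`-tuples is at most `C T^(2(n - 1) + β)`. -/
theorem result (n d : ℕ) (hn : 1 ≤ n) (a b : ℝ) (ha : 0 < a) (hab : a < b) (hb : b < 1) (A β : ℝ) (hA : 0 ≤ A)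
    (hβ : 2 - 2 / (((d : ℝ) + 1) ^ (4 * n + 1) + 1) < β) :
    ∃ B C : ℝ, ∀ T : ℝ, 1 ≤ T → (Exceptional n d a b A B T).Finite ∧
      ((Exceptional n d a b A B T).ncard : ℝ) ≤ C * T ^ (2 * ((n : ℝ) - 1) + β) :=
  Pool.Agent.TH21.MS.nomemain n d hn a b ha hab hb A β hA hβ

end Pool.Agent.Results.MP_5e64e7_nt.AlmostAllRationalNomes
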