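import Pool.Agent.TH659.AQ.ModInd

/-!
# `π` and the values of `j`, `j'`, `j''` at the points `i f_k(q_j)` for almost all tuples of rationals `q_j`
-/

set_option autoImplicit false

open Set Filter

namespace Pool.Agent.Results.MP_5e64e7_nt.TuplesWithPi

/-- the normalised Eisenstein series of weight `4` -/
noncomputable def E4 (τ : ℂ) : ℂ :=
  1 + 240 * ∑' m : ℕ, ((ArithmeticFunction.sigma 3 (m + 1) : ℕ) : ℂ) *
    Complex.exp (2 * (Real.pi : ℂ) * Complex.I * τ) ^ (m + 1)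

/-- the normalised Eisenstein series of weight `6` -/
noncomputable def E6 (τ : ℂ) : ℂ :=
  1 - 504 * ∑' m : ℕ, ((ArithmeticFunction.sigma 5 (m + 1) : ℕ) : ℂ) *
    Complex.exp (2 * (Real.pi : ℂ) * Complex.I * τ) ^ (m + 1)

/-- the modular invariant `j = q⁻¹ + 744 + 196884 q + ⋯` -/
noncomputable def j (τ : ℂ) : ℂ := 1728 * E4 τ ^ 3 / (E4 τ ^ 3 - E6 τ ^ 2)

/-- `J (z) = (j (z), j' (z), j'' (z))` (complex derivatives) -/
noncomputable def jet (z : ℂ) : Fin 3 → ℂ := ![j z, deriv j z, deriv (deriv j) z]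

/-- The `3 m n + 1` numbers `π` and `J (i f_k (q_l))`, `k < m`, `l < n`. -/
noncomputable def numbers {m n : ℕ} (f : Fin m → ℝ → ℝ) (q : Fin n → ℚ) (x : Option (Fin n × Fin m × Fin 3)) : ℂ :=
  match x with
  | none => (Real.pi : ℂ)
  | some (l, k, i) => jet (Complex.I * (f k (q l) : ℂ)) i

/-- The `n`-tuples `q` of rational numbers in `[a, b]` with denominators at most `T` for which some nonzero polynomial
in `3 m n + 1` variables with integer coefficients of absolute value at most `T ^ A`, of degree at most `d` in each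
variable, takes at `π` and the numbers `J (i f_k (q_l))` a value of absolute value at most `T ^ (-B)`. -/
def Exceptional {m : ℕ} (n : ℕ) (f : Fin m → ℝ → ℝ) (d : ℕ) (a b A B T : ℝ) : Set (Fin n → ℚ) :=
  {q | (∀ l, a ≤ q l ∧ q l ≤ b ∧ ((q l).den : ℝ) ≤ T) ∧
    ∃ P : MvPolynomial (Option (Fin n × Fin m × Fin 3)) ℤ, P ≠ 0 ∧ (∀ x, P.degreeOf x ≤ d) ∧
      (∀ s, |((P.coeff s : ℤ) : ℝ)| ≤ T ^ A) ∧ ‖MvPolynomial.aeval (numbers f q) P‖ ≤ T ^ (-B)}

/-- The functions `f_1, …, f_m` are real analytic and positive on `[a, ∞)` with `log t ≪ f_1 (t) ≪ ⋯ ≪ f_m (t)` (for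
instance `f_k (t) = t ^ r_k`, `0 < r_1 < ⋯ < r_m`). For all `d`, `A ≥ 0` and `β > 2 - 2 / ((d + 1) ^ (3 m n + 1) + 1)`
there are `B` and `C` such that for all `T ≥ 1` there are at most `C T ^ (2 (n - 1) + β)` exceptional `n`-tuples. -/
theorem result (m n d : ℕ) (hn : 1 ≤ n) (a b A β : ℝ) (hab : a < b) (hA : 0 ≤ A)
    (hβ : 2 - 2 / (((d : ℝ) + 1) ^ (3 * m * n + 1) + 1) < β) (f : Fin m → ℝ → ℝ)
    (hf : ∀ k, AnalyticOnNhd ℝ (f k) (Ici a)) (hpos : ∀ k, ∀ t, a ≤ t → 0 < f k t)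
    (hgrowth0 : ∀ k, Tendsto (fun t => f k t / Real.log t) atTop atTop)
    (hgrowth : ∀ k l, k < l → Tendsto (fun t => f l t / f k t) atTop atTop) :
    ∃ B C : ℝ, ∀ T : ℝ, 1 ≤ T → (Exceptional n f d a b A B T).Finite ∧
      ((Exceptional n f d a b A B T).ncard : ℝ) ≤ C * T ^ (2 * ((n : ℝ) - 1) + β) := by
  obtain ⟨B, C, h⟩ := TH659.AQ.jets hn f a b hab hf hpos hgrowth0 hgrowth d A β hA hβ
  refine ⟨B, C, fun T hT => ?_⟩
  obtain ⟨h1, h2⟩ := h T hT
  have hsub : Exceptional n f d a b A B T ⊆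
      TH659.AQ.ExC (n := n) d (TH21.MS.uj f) (fun p => TH21.MS.sj p.2) a b A B T := by
    rintro q ⟨hq, P, hP0, hPd, hPc, hPs⟩
    refine ⟨hq, P, hP0, hPd, hPc, ?_⟩
    have heq : numbers f q = TH659.AQ.vC (TH21.MS.uj f) (fun p => TH21.MS.sj p.2) q := by
      funext x
      rcases x with _ | ⟨l, k, i⟩
      · rfl
      · exact TH21.MS.jet_I (f k (q l)) (hpos k _ (hq l).1) i
    rw [← heq]
    exact hPs
  refine ⟨h1.subset hsub, le_trans ?_ h2⟩
  exact_mod_cast Set.ncard_le_ncard hsub h1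

end Pool.Agent.Results.MP_5e64e7_nt.TuplesWithPi
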